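import Pool.Agent.MP_13199e_lc.PP.Model

/-! PROJECT QL, block TOP: four registers and a table of labels on a square grid. -/

set_option autoImplicit false

namespace Pool.Agent.PP.QL.T

/-! ### The table -/

/-- The nearest side of the square, `4` in the centre. -/
def tN : List (List ℕ) :=
  [[3,3,3,3,3,3,3,3,3,3,3,3,3,3,3,3,3,3,0],
   [2,3,3,3,3,3,3,3,3,3,3,3,3,3,3,3,3,0,0],
   [2,2,3,3,3,3,3,3,3,3,3,3,3,3,3,3,0,0,0],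
   [2,2,2,3,3,3,3,3,3,3,3,3,3,3,3,0,0,0,0],
   [2,2,2,2,3,3,3,3,3,3,3,3,3,3,0,0,0,0,0],
   [2,2,2,2,2,4,4,4,4,4,4,4,4,4,0,0,0,0,0],
   [2,2,2,2,2,4,4,4,4,4,4,4,4,4,0,0,0,0,0],
   [2,2,2,2,2,4,4,4,4,4,4,4,4,4,0,0,0,0,0],
   [2,2,2,2,2,4,4,4,4,4,4,4,4,4,0,0,0,0,0],
   [2,2,2,2,2,4,4,4,4,4,4,4,4,4,0,0,0,0,0],
   [2,2,2,2,2,4,4,4,4,4,4,4,4,4,0,0,0,0,0],
   [2,2,2,2,2,4,4,4,4,4,4,4,4,4,0,0,0,0,0],
   [2,2,2,2,2,4,4,4,4,4,4,4,4,4,0,0,0,0,0],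
   [2,2,2,2,2,4,4,4,4,4,4,4,4,4,0,0,0,0,0],
   [2,2,2,2,2,1,1,1,1,1,1,1,1,1,1,0,0,0,0],
   [2,2,2,2,1,1,1,1,1,1,1,1,1,1,1,1,0,0,0],
   [2,2,2,1,1,1,1,1,1,1,1,1,1,1,1,1,1,0,0],
   [2,2,1,1,1,1,1,1,1,1,1,1,1,1,1,1,1,1,0],
   [2,1,1,1,1,1,1,1,1,1,1,1,1,1,1,1,1,1,1]]

/-- The labels of the ring. -/
def t1 : List (List ℕ) :=
  [[0,0,0,0,0,0,0,0,0,0,0,0,0,0,0,0,0,0,1],
   [3,3,3,3,3,3,3,3,3,3,3,3,3,3,0,0,0,0,1],
   [3,3,2,2,2,2,2,2,2,2,2,2,3,3,3,3,3,0,1],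
   [3,3,2,1,1,1,1,1,1,1,2,2,2,2,2,2,3,0,1],
   [3,2,2,1,0,0,0,0,0,1,1,1,1,1,1,2,3,0,1],
   [3,2,2,1,0,0,0,0,0,1,1,1,1,1,1,2,3,0,1],
   [3,2,1,1,0,0,0,0,0,1,1,1,1,1,1,2,3,0,1],
   [3,2,1,1,0,0,0,0,0,1,1,1,1,1,1,2,3,0,1],
   [3,2,1,0,0,0,0,0,0,1,1,1,1,1,1,2,3,0,1],
   [3,2,1,0,3,3,3,3,3,2,2,2,2,2,2,2,3,0,1],
   [3,2,1,0,3,3,3,3,3,2,2,2,2,2,2,3,3,0,1],
   [3,2,1,0,3,3,3,3,3,2,2,2,2,2,2,3,3,0,1],
   [3,2,1,0,3,3,3,3,3,2,2,2,2,2,2,3,0,0,1],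
   [3,2,1,0,3,3,3,3,3,2,2,2,2,2,2,3,0,0,1],
   [3,2,1,0,3,3,3,3,3,2,2,2,2,2,2,3,0,0,1],
   [3,2,1,0,0,0,0,0,3,3,3,3,3,3,3,3,0,1,1],
   [3,2,1,1,1,1,0,0,0,0,0,0,0,0,0,0,0,1,1],
   [3,2,2,1,1,1,1,1,1,1,1,1,1,1,1,1,1,1,1],
   [3,2,2,2,2,2,2,2,2,2,2,2,2,2,2,2,2,2,2]]

/-- The labels of the first segment, `4` if there is none. -/
def tZ : List (List ℕ) :=
  [[4,4,4,4,4,4,4,4,4,4,4,4,4,4,4,4,4,4,4],
   [4,4,4,4,4,4,4,4,4,4,4,4,4,4,4,4,4,4,4],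
   [4,4,4,4,4,4,4,4,4,4,4,4,4,4,4,4,4,4,4],
   [4,4,4,4,4,4,4,4,4,4,4,4,4,4,4,4,4,4,1],
   [4,4,4,4,4,4,4,4,4,4,4,4,4,4,4,4,4,1,1],
   [4,4,4,4,4,4,4,4,4,4,4,4,4,4,4,4,1,1,1],
   [4,4,4,4,4,4,0,0,0,0,1,1,1,4,4,1,1,1,1],
   [4,4,4,4,4,4,0,0,0,0,0,0,1,4,1,1,1,1,1],
   [4,4,4,4,4,4,0,0,0,0,0,0,0,0,0,1,1,1,1],
   [4,4,4,4,4,4,3,3,3,0,0,0,0,0,0,0,0,1,1],
   [4,4,4,4,4,4,3,3,3,3,3,3,3,3,3,0,0,1,1],
   [4,4,4,4,4,4,3,3,3,3,3,3,2,4,3,3,0,1,1],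
   [4,4,4,4,4,4,3,3,3,3,3,2,2,4,4,3,0,0,1],
   [4,4,4,4,4,4,4,4,4,4,4,4,4,4,4,4,0,0,1],
   [4,4,4,4,4,4,4,4,4,4,4,4,4,4,4,4,4,0,1],
   [4,4,4,4,4,4,4,4,4,4,4,4,4,4,4,4,4,4,1],
   [4,4,4,4,4,4,4,4,4,4,4,4,4,4,4,4,4,4,4],
   [4,4,4,4,4,4,4,4,4,4,4,4,4,4,4,4,4,4,4],
   [4,4,4,4,4,4,4,4,4,4,4,4,4,4,4,4,4,4,4]]

/-- An entry of a table. -/
def ent (t : List (List ℕ)) (u v : ℕ) : ℕ := (t.getD v []).getD u 0

/-- The quadrant. -/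
def quad (u v : ℕ) : ℕ := if 9 ≤ v then (if 9 ≤ u then 0 else 1) else (if 9 ≤ u then 3 else 2)

/-- The source of the register `i`: `0` itself, `1` the successor of the register `i - 1`,
`3` the predecessor of the register `i + 1`, `2` itself, `4` the first state. -/
def src (i u v : ℕ) : ℕ :=
  if ent tN u v = 4 then (if i = 0 then 4 else i) else (i + 4 - ent tN u v) % 4

/-- The label: the signs are plus plus, minus plus, minus minus, plus minus for `0, 1, 2, 3`. -/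
def lab (u v : ℕ) (e z : Bool) : ℕ :=
  if z = true ∧ ent tZ u v ≠ 4 then ent tZ u v
  else if e = true then ent t1 u v else (quad u v + 2) % 4

/-- The vote for the coordinate `c` (`false` is the first one). -/
def vote (c : Bool) (u v : ℕ) (e z : Bool) : Bool :=
  bif c then decide (lab u v e z < 2) else decide (lab u v e z % 3 = 0)

/-- A property of all points of a cell. -/
def Cell (u v : ℕ) (p : ℕ → ℕ → Prop) : Prop :=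
  ∀ a b, (a = u ∨ a = u + 1) → (b = v ∨ b = v + 1) → p a b

/-- The test of the edge `i` is clean. -/
def ClE (u v i : ℕ) : Prop := Cell u v fun a b =>
  (src i a b = 0 ∨ src i a b = 2 ∨ src i a b = 3) ∧
    (src ((i + 1) % 4) a b = 0 ∨ src ((i + 1) % 4) a b = 2 ∨ src ((i + 1) % 4) a b = 1)

/-- The test of the first state is clean. -/
def ClZ (u v : ℕ) : Prop := Cell u v fun a b => src 0 a b = 0 ∨ src 0 a b = 2 ∨ src 0 a b = 4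

/-- The cell lies at the vertex `i`. -/
def Vx (u v i : ℕ) : Prop := Cell u v fun a b =>
  src i a b = 0 ∧ src ((i + 1) % 4) a b = 1 ∧ src ((i + 3) % 4) a b = 3

/-- The values of the tests that are possible if there is no solution. -/
structure Scen (u v : ℕ) (e : ℕ → Bool) (z : Bool) : Prop where
  cen : (Cell u v fun a b => src 0 a b = 4) → z = true
  fwd : ∀ i < 4, Vx u v i → e ((i + 3) % 4) = true → e i = true
  bwd : ∀ i < 4, Vx u v i → e i = true → e ((i + 3) % 4) = true ∨ (i = 0 ∧ z = true)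
  fst : Vx u v 0 → z = true → e 0 = true ∧ e 3 = false

/-- TAB: in each cell one vote is constant and points into the square. -/
def TabS : Prop :=
  ∀ u < 18, ∀ v < 18, ∀ e z, Scen u v e z → ∃ c s,
    (Cell u v fun a b => ∀ e' z', (ClE u v (quad a b) → e' = e (quad a b)) → (ClZ u v → z' = z) →
      vote c a b e' z' = s) ∧ (bif c then v else u) ≠ bif s then 17 else 0

/-! ### The interfaces -/

/-- The local line: states, validity with a colour, successor, predecessor, first state. -/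
structure LocP {St : Type} (Val : ℕ → St → Prop) (Fm Gm : St → St) (Y0 : St) (Sol : St → Prop) :
    Prop where
  fwd : ∀ i < 4, ∀ X, Val i X → (Val ((i + 1) % 4) (Fm X) ∧ Gm (Fm X) = X) ∨ Sol X
  bwd : ∀ i < 4, ∀ X, Val i X →
    (Val ((i + 3) % 4) (Gm X) ∧ Fm (Gm X) = X) ∨ Sol X ∨ (i = 0 ∧ X = Y0)
  zero : Val 0 Y0
  one : Val 1 (Fm Y0) ∧ Gm (Fm Y0) = Y0
  src : ¬Val 3 (Gm Y0)

section
variable {P S Sy K St : Type} (Is : Sy → K → Prop) (enc : St → P → K)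

/-- The word `U` is close to the code word of `X`. -/
def Cl (t : ℝ) (U : P → Sy) (X : St) : Prop := pr (fun p => ¬Is (U p) (enc X p)) ≤ t

/-- One register: the input `W`, the clean word `Y`, its images and the test bit `tv`. -/
structure RegP (Val : St → Prop) (Fm Gm : St → St) (ε η τ : ℝ) (W Y FY GY : P → Sy)
    (tv : P → V4) : Prop where
  snd : pr (fun p => tv p = 0) ≤ 2 * ε → ∃ X, Val X ∧ Cl Is enc η Y X ∧
    Cl Is enc η FY (Fm X) ∧ Cl Is enc η GY (Gm X)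
  cmp : ∀ X, Val X → Cl Is enc τ W X → Cl Is enc η Y X ∧ pr (fun p => tv p ≠ 3) ≤ ε / 16

/-- A sampler: error `ξ` outside a set of measure `η`. -/
def Sam (nb : S → P → P) (ξ η : ℝ) : Prop :=
  ∀ A : P → Prop, pr (fun p => ξ ≤ |pr (fun σ => A (nb σ p)) - pr A|) ≤ η

/-- `b` is a possible value of the node `x`. -/
def Pos (x : V4) (b : Bool) : Prop := ∀ c, x = ofB c → b = c

/-- `u` is a possible number of ones among 18 nodes. -/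
def Adm (U : ℕ → V4) (u : ℕ) : Prop :=
  ∃ β : ℕ → Bool, (∀ n < 18, Pos (U n) (β n)) ∧ u = (List.range 18).countP β

/-- The layers of the block. -/
structure Lay (P Sy : Type) where
  W : ℕ → P → Sy
  Y : ℕ → P → Sy
  FY : ℕ → P → Sy
  GY : ℕ → P → Sy
  tv : ℕ → P → V4
  pE : ℕ → P → V4
  E : ℕ → P → V4
  v : Bool → ℕ → P → V4
  U : Bool → P → ℕ → V4

/-- The source number `s` of the register `i` has the pure value `c` at `p`. -/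
def Lay.From (L : Lay P Sy) (Y0 : St) (i s : ℕ) (p : P) (c : K) : Prop :=
  if s = 4 then enc Y0 p = c else if s = 1 then Is (L.FY ((i + 3) % 4) p) c
  else if s = 3 then Is (L.GY ((i + 1) % 4) p) c else Is (L.Y i p) c

/-- The gates at the point `p` in forced form; the test number `4` is the test of the first
state. -/
structure Lay.Ok (L : Lay P Sy) (Y0 : St) (nb : S → P → P) (ε : ℝ) (p : P) : Prop where
  pe1 : ∀ i < 4, ∀ c d, L.tv i p = 3 → L.tv ((i + 1) % 4) p = 3 → Is (L.FY i p) c →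
    Is (L.Y ((i + 1) % 4) p) c → Is (L.GY ((i + 1) % 4) p) d → Is (L.Y i p) d → L.pE i p = 3
  pe0 : ∀ i < 4, L.tv i p = 0 ∨ L.tv ((i + 1) % 4) p = 0 ∨
    (∃ c d, c ≠ d ∧ Is (L.FY i p) c ∧ Is (L.Y ((i + 1) % 4) p) d) ∨
    (∃ c d, c ≠ d ∧ Is (L.GY ((i + 1) % 4) p) c ∧ Is (L.Y i p) d) → L.pE i p = 0
  pz1 : L.tv 0 p = 3 → Is (L.Y 0 p) (enc Y0 p) → L.pE 4 p = 3
  pz0 : L.tv 0 p = 0 ∨ (∃ c, c ≠ enc Y0 p ∧ Is (L.Y 0 p) c) → L.pE 4 p = 0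
  e1 : ∀ i < 5, pr (fun σ => L.pE i (nb σ p) ≠ 3) ≤ ε / 2 → L.E i p = 3
  e0 : ∀ i < 5, ε / 2 < pr (fun σ => L.pE i (nb σ p) = 0) → L.E i p = 0
  ch : ∀ c, ∀ k < 63, ∀ b, rd false (L.v c k p) = some b → L.v c (k + 1) p = ofB b
  u1 : ∀ c, ∀ n : ℕ, n < 18 → ((n : ℝ) + 10) / 36 ≤
    pr (fun x : Fin 64 × S => rd true (L.v c x.1 (nb x.2 p)) = some true) → L.U c p n = 3
  u0 : ∀ c, ∀ n : ℕ, n < 18 → pr (fun x : Fin 64 × S => rd true (L.v c x.1 (nb x.2 p)) ≠ some false) <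
    ((n : ℝ) + 10) / 36 → L.U c p n = 0
  sel : ∀ i < 4, ∀ c, (∀ a b, Adm (L.U false p) a → Adm (L.U true p) b →
    L.From Is enc Y0 i (src i a b) p c) → Is (L.W i p) c
  vt : ∀ c s, (∀ a b e z, Adm (L.U false p) a → Adm (L.U true p) b →
    Pos (L.E (quad a b) p) e → Pos (L.E 4 p) z → vote c a b e z = s) → L.v c 0 p = ofB s

end

/-- TOP: some register holds a valid state that contains a solution. -/
def TopS : Prop :=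
  ∀ (P S Sy K St : Type) [Finite P] [Nonempty P] [Finite S] [Nonempty S] (Is : Sy → K → Prop)
    (enc : St → P → K) (Val : ℕ → St → Prop) (Fm Gm : St → St) (Y0 : St) (Sol : St → Prop)
    (L : Lay P Sy) (nb : S → P → P) (F : P → Prop) (ε η τ : ℝ),
    0 < ε → ε ≤ 1 / 1000 → 64 * η ≤ ε → 6 * η ≤ τ →
    (∀ o c d, Is o c → Is o d → c = d) →
    (∀ X X', pr (fun p => enc X p ≠ enc X' p) ≤ 4 * ε → X = X') →
    LocP Val Fm Gm Y0 Sol →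
    (∀ i < 4, RegP Is enc (Val i) Fm Gm ε η τ (L.W i) (L.Y i) (L.FY i) (L.GY i) (L.tv i)) →
    Sam nb (ε / 8) (η / 256) → pr F ≤ η → (∀ p, ¬F p → L.Ok Is enc Y0 nb ε p) →
    ∃ i < 4, ∃ X, Val i X ∧ Cl Is enc η (L.Y i) X ∧ Sol X

end Pool.Agent.PP.QL.T
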