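import Pool.Agent.MP_13199e_lc.QL.T.Spec

/-! PROJECT QL, block TOP: the possible values of a coordinate lie in one cell. -/

set_option autoImplicit false

namespace Pool.Agent.PP.QL.T

theorem count_le (β : ℕ → Bool) (u : ℕ) : ∀ m, (∀ n < m, u < n → β n = false) →
    (List.range m).countP β ≤ min m (u + 1)
  | 0, _ => by simp
  | m + 1, h => by
    have := count_le β u m fun n hn => h n (by omega)
    rw [List.range_succ, List.countP_append, List.countP_singleton]
    by_cases k : u < m
    · rw [h m (by omega) k]; simp only [Bool.false_eq_true, if_false]; omega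
    · split_ifs <;> omega

theorem le_count (β : ℕ → Bool) (u : ℕ) : ∀ m, (∀ n < m, n < u → β n = true) →
    min m u ≤ (List.range m).countP β
  | 0, _ => by simp
  | m + 1, h => by
    have := le_count β u m fun n hn => h n (by omega)
    rw [List.range_succ, List.countP_append, List.countP_singleton]
    by_cases k : m < u
    · rw [h m (by omega) k]; simp only [if_true]; omega
    · split_ifs <;> omega

theorem chain_pure {v : ℕ → V4} (h : ∀ k < 63, ∀ b, rd false (v k) = some b → v (k + 1) = ofB b)
    {b : Bool} {k : ℕ} (hk : v k = ofB b) : ∀ j, k + j < 64 → v (k + j) = ofB b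
  | 0, _ => hk
  | j + 1, hj => h (k + j) (by omega) b (by rw [chain_pure h hk j (by omega), rd_ofB])

theorem chain_one {v : ℕ → V4} (h : ∀ k < 63, ∀ b, rd false (v k) = some b → v (k + 1) = ofB b)
    {a b : ℕ} (hab : a < b) (hb : b < 64) (ha : rd true (v a) = none) : rd true (v b) ≠ none := by
  have e : ∀ x : V4, rd true x = none → rd false x = some true := by decide
  have := chain_pure h (h a (by omega) true (e _ ha)) (b - (a + 1)) (by omega)
  rw [show a + 1 + (b - (a + 1)) = b by omega] at this
  rw [this, rd_ofB]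
  simp

theorem chain_pr {v : ℕ → V4} (h : ∀ k < 63, ∀ b, rd false (v k) = some b → v (k + 1) = ofB b) :
    pr (fun k : Fin 64 => rd true (v k) ≠ some false) ≤
      pr (fun k : Fin 64 => rd true (v k) = some true) + 1 / 64 := by
  have e : ∀ x : Option Bool, x ≠ some false → x = some true ∨ x = none := by decide
  have := pr_le_inv (p := fun k : Fin 64 => rd true (v k) = none) fun a b ha hb => by
    rcases lt_trichotomy (a : ℕ) b with k | k | k
    · exact absurd hb (chain_one h k b.2 ha)
    · exact Fin.ext k
    · exact absurd ha (chain_one h k a.2 hb)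
  rw [Nat.card_eq_fintype_card, Fintype.card_fin] at this
  exact (pr_le_add fun k hk => e _ hk).trans (add_le_add le_rfl (by exact_mod_cast this))

theorem cell_coord {P S : Type} [Finite P] [Nonempty P] [Finite S] [Nonempty S]
    {v : ℕ → P → V4} {U : P → ℕ → V4} {nb : S → P → P} {F : P → Prop} {ξ η φ : ℝ}
    (hS : Sam nb ξ η) (hF : pr F ≤ φ) (hξ0 : 0 ≤ ξ) (hξ : ξ ≤ 1 / 1000) (hφ : φ ≤ 1 / 1000)
    (ch : ∀ p, ¬F p → ∀ k < 63, ∀ b, rd false (v k p) = some b → v (k + 1) p = ofB b)
    (u1 : ∀ p, ¬F p → ∀ n : ℕ, n < 18 → ((n : ℝ) + 10) / 36 ≤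
      pr (fun x : Fin 64 × S => rd true (v x.1 (nb x.2 p)) = some true) → U p n = 3)
    (u0 : ∀ p, ¬F p → ∀ n : ℕ, n < 18 →
      pr (fun x : Fin 64 × S => rd true (v x.1 (nb x.2 p)) ≠ some false) <
        ((n : ℝ) + 10) / 36 → U p n = 0) :
    ∃ u < 18, ∃ N : P → Prop, pr N ≤ 128 * η ∧
      (∀ p, ¬F p → ¬N p → ∀ a, Adm (U p) a → a = u ∨ a = u + 1) ∧
      ∀ s, pr (fun p => v 0 p ≠ ofB s) ≤ 1 / 10 → u = bif s then 17 else 0 := by
  set A : Fin 64 → P → Prop := fun k p => rd true (v k p) = some true with hA
  set B : Fin 64 → P → Prop := fun k p => rd true (v k p) ≠ some false with hB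
  set a := av fun k => pr (A k) with ha
  set b := av fun k => pr (B k) with hb
  have hab : b ≤ a + 1 / 64 + φ := by
    rw [ha, hb, pr_comm A, pr_comm B]
    calc av (fun p => pr fun k => B k p)
        ≤ av fun p => pr (fun k => A k p) + 1 / 64 + ind (F p) := av_mono fun p => by
          by_cases k : F p
          · rw [ind_pos k]
            linarith [pr_le_one fun k => B k p, pr_nonneg fun k => A k p]
          · rw [ind_neg k, add_zero]
            exact chain_pr (v := fun k => v k p) (ch p k)
      _ ≤ _ := by
          rw [av_add, av_add, av_const]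
          exact add_le_add le_rfl hF
  have hba : a ≤ b := av_mono fun k => pr_mono fun p h => by
    show rd true (v k p) ≠ some false
    rw [show rd true (v k p) = some true from h]; simp
  set C : Fin 64 × Bool → P → Prop := fun x => bif x.2 then A x.1 else B x.1 with hC
  set w := min 18 ⌊36 * (a - ξ) - 9⌋₊ with hw
  refine ⟨min w 17, by omega, fun p => ∃ x, ξ ≤ |pr (fun σ => C x (nb σ p)) - pr (C x)|, ?_,
    fun p hp hN n ⟨β, hβ, hn⟩ => ?_, fun s hs => ?_⟩
  · refine (pr_exists_le' fun x => hS (C x)).trans_eq ?_
    simp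
  · have hN' := fun x => abs_lt.1 (not_le.1 (not_exists.1 hN x))
    have h1 : a - ξ ≤ pr fun x : Fin 64 × S => rd true (v x.1 (nb x.2 p)) = some true := by
      rw [pr_prod, ha, ← av_const (α := Fin 64) ξ, ← av_sub]
      exact av_mono fun k => by have := (hN' (k, true)).1; simp only [hC, cond_true] at this; linarith
    have h2 : pr (fun x : Fin 64 × S => rd true (v x.1 (nb x.2 p)) ≠ some false) ≤ b + ξ := by
      rw [pr_prod, hb, ← av_const (α := Fin 64) ξ, ← av_add]
      exact av_mono fun k => by
        have := (hN' (k, false)).2; simp only [hC, cond_false] at this; linarith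
    have k1 := le_count β w 18 fun m hm hmw => hβ m hm true (u1 p hp m hm (by
      have : ((m + 1 : ℕ) : ℝ) ≤ 36 * (a - ξ) - 9 :=
        (Nat.le_floor_iff' (by omega)).1 (by omega)
      push_cast at this
      linarith))
    have k2 := count_le β w 18 fun m hm hmw => hβ m hm false (u0 p hp m hm (by
      have h3 := Nat.lt_floor_add_one (36 * (a - ξ) - 9)
      have h4 : ((⌊36 * (a - ξ) - 9⌋₊ + 1 : ℕ) : ℝ) ≤ m := by exact_mod_cast (by omega)
      push_cast at h4
      linarith))
    omega
  · have hv : ∀ (k : Fin 64) p, ¬F p → v 0 p = ofB s → rd true (v k p) = some s := fun k p hp h => by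
      have := chain_pure (v := fun k => v k p) (ch p hp) h k (by omega)
      rw [zero_add] at this
      rw [this, rd_ofB]
    cases s
    · have : b ≤ 1 / 10 + φ := av_le fun k => (pr_le_add (p := fun p => v 0 p ≠ ofB false) (q := F)
        fun p h => by
          by_contra g
          exact h (hv k p (not_or.1 g).2 (not_not.1 (not_or.1 g).1))).trans (add_le_add hs hF)
      have : ⌊36 * (a - ξ) - 9⌋₊ = 0 := Nat.floor_eq_zero.2 (by linarith)
      simp only [cond_false]
      omega
    · have : 1 - (1 / 10 + φ) ≤ a := le_av fun k => by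
        have := (pr_le_add (r := fun p => ¬A k p) (p := fun p => v 0 p ≠ ofB true) (q := F)
          fun p h => by
            by_contra g
            exact h (hv k p (not_or.1 g).2 (not_not.1 (not_or.1 g).1))).trans (add_le_add hs hF)
        rw [pr_not] at this
        linarith
      have : 18 ≤ ⌊36 * (a - ξ) - 9⌋₊ := Nat.le_floor (by push_cast; linarith)
      simp only [cond_true]
      omega

end Pool.Agent.PP.QL.T
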