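import Pool.Agent.MP_13199e_lc.QL.T.Spec

/-! PROJECT QL, block TOP: the table is checked. -/

set_option autoImplicit false

namespace Pool.Agent.PP.QL.T

/-- A test on the four points of a cell. -/
def cellB (u v : ℕ) (p : ℕ → ℕ → Bool) : Bool :=
  p u v && p (u + 1) v && p u (v + 1) && p (u + 1) (v + 1)

theorem cell_iff {u v : ℕ} {p : ℕ → ℕ → Prop} [∀ a b, Decidable (p a b)] :
    Cell u v p ↔ cellB u v (fun a b => decide (p a b)) = true := by
  simp only [Cell, cellB, Bool.and_eq_true, decide_eq_true_eq]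
  constructor
  · exact fun h => ⟨⟨⟨h _ _ (.inl rfl) (.inl rfl), h _ _ (.inr rfl) (.inl rfl)⟩,
      h _ _ (.inl rfl) (.inr rfl)⟩, h _ _ (.inr rfl) (.inr rfl)⟩
  · rintro ⟨⟨⟨h1, h2⟩, h3⟩, h4⟩ a b (rfl | rfl) (rfl | rfl) <;> assumption

instance decCell (u v : ℕ) (p : ℕ → ℕ → Prop) [∀ a b, Decidable (p a b)] :
    Decidable (Cell u v p) := decidable_of_iff _ cell_iff.symm

instance (u v i : ℕ) : Decidable (ClE u v i) := decCell _ _ _
instance (u v : ℕ) : Decidable (ClZ u v) := decCell _ _ _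
instance (u v i : ℕ) : Decidable (Vx u v i) := decCell _ _ _

/-- Four bits as a function. -/
def four (a b c d : Bool) (i : ℕ) : Bool :=
  if i = 0 then a else if i = 1 then b else if i = 2 then c else d

/-- The scenario as a decidable proposition. -/
def Sc (u v : ℕ) (e : ℕ → Bool) (z : Bool) : Prop :=
  ((Cell u v fun a b => src 0 a b = 4) → z = true) ∧
  (∀ i < 4, Vx u v i → e ((i + 3) % 4) = true → e i = true) ∧
  (∀ i < 4, Vx u v i → e i = true → e ((i + 3) % 4) = true ∨ (i = 0 ∧ z = true)) ∧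
  (Vx u v 0 → z = true → e 0 = true ∧ e 3 = false)

instance (u v : ℕ) (e : ℕ → Bool) (z : Bool) : Decidable (Sc u v e z) := by
  unfold Sc; infer_instance

/-- The conclusion at one point. -/
def Pt1 (u v : ℕ) (e : ℕ → Bool) (z k s : Bool) (x y : ℕ) : Prop :=
  ∀ e' z' : Bool, (ClE u v (quad x y) → e' = e (quad x y)) → (ClZ u v → z' = z) →
    vote k x y e' z' = s

instance (u v : ℕ) (e : ℕ → Bool) (z k s : Bool) (x y : ℕ) : Decidable (Pt1 u v e z k s x y) := by
  unfold Pt1; infer_instance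

/-- The conclusion for a cell. -/
def Con (u v : ℕ) (e : ℕ → Bool) (z : Bool) : Prop :=
  ∃ k s : Bool, Cell u v (Pt1 u v e z k s) ∧ (bif k then v else u) ≠ bif s then 17 else 0

instance (u v : ℕ) (e : ℕ → Bool) (z : Bool) : Decidable (Con u v e z) := by
  unfold Con; infer_instance

theorem tab_aux : ∀ u < 18, ∀ v < 18, ∀ a b c d z : Bool, Sc u v (four a b c d) z →
    Con u v (four a b c d) z := by
  decide +kernel

theorem quad_lt (a b : ℕ) : quad a b < 4 := by
  unfold quad; split_ifs <;> omega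

theorem tabS : TabS := by
  intro u hu v hv e z h
  have k : ∀ i < 4, four (e 0) (e 1) (e 2) (e 3) i = e i := by
    intro i hi
    interval_cases i <;> rfl
  have m : ∀ i : ℕ, (i + 3) % 4 < 4 := fun i => Nat.mod_lt _ (by norm_num)
  obtain ⟨c, s, h1, h2⟩ := tab_aux u hu v hv (e 0) (e 1) (e 2) (e 3) z
    ⟨h.cen, fun i hi => by rw [k _ (m i), k i hi]; exact h.fwd i hi,
      fun i hi => by rw [k _ (m i), k i hi]; exact h.bwd i hi, h.fst⟩
  refine ⟨c, s, fun a b ha hb e' z' he hz => h1 a b ha hb e' z' (fun g => ?_) hz, h2⟩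
  rw [k _ (quad_lt a b)]
  exact he g

end Pool.Agent.PP.QL.T
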