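import Pool.Agent.MP_13199e_lc.QL.T.Tab
import Pool.Agent.MP_13199e_lc.QL.T.Cell

/-! PROJECT QL, block TOP: there is no fixed point without a solution. -/

set_option autoImplicit false

namespace Pool.Agent.PP.QL.T

theorem pr_or3 {α : Type} [Finite α] {p q r s : α → Prop} (h : ∀ a, s a → p a ∨ q a ∨ r a) :
    pr s ≤ pr p + pr q + pr r := by
  have := pr_le_add h
  linarith [pr_or q r]

theorem pr_or4 {α : Type} [Finite α] {p q r t s : α → Prop}
    (h : ∀ a, s a → p a ∨ q a ∨ r a ∨ t a) : pr s ≤ pr p + pr q + pr r + pr t := by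
  have := pr_or3 h
  linarith [pr_or r t]

theorem pr_or7 {α : Type} [Finite α] {p q r t x y z s : α → Prop}
    (h : ∀ a, s a → p a ∨ q a ∨ r a ∨ t a ∨ x a ∨ y a ∨ z a) :
    pr s ≤ pr p + pr q + pr r + pr t + pr x + pr y + pr z := by
  have := pr_or4 h
  linarith [pr_or4 (s := fun a => t a ∨ x a ∨ y a ∨ z a) fun _ h => h]

theorem topS : TopS := by
  intro P S Sy K St _ _ _ _ Is enc Val Fm Gm Y0 Sol L nb F ε η τ hε hε1 hη hτ hI hD hL hR hS hF hO
  by_contra hno
  have hη0 : 0 ≤ η := (pr_nonneg _).trans hF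
  have m1 : ∀ i : ℕ, (i + 1) % 4 < 4 := fun i => Nat.mod_lt _ (by norm_num)
  have m3 : ∀ i : ℕ, (i + 3) % 4 < 4 := fun i => Nat.mod_lt _ (by norm_num)
  have r1 : ∀ i < 4, ((i + 1) % 4 + 3) % 4 = i := fun i hi => by omega
  have r3 : ∀ i < 4, ((i + 3) % 4 + 1) % 4 = i := fun i hi => by omega
  have uq : ∀ {U : P → Sy} {X X' : St}, Cl Is enc η U X → Cl Is enc η U X' → X = X' :=
    fun {U X X'} h h' => hD X X' ((pr_le_add fun p g => by
      by_contra k
      exact g (hI _ _ _ (not_not.1 (not_or.1 k).1) (not_not.1 (not_or.1 k).2))).trans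
        ((add_le_add h h').trans (by linarith)))
  obtain ⟨u, hu, N1, hN1, cu, eu⟩ := cell_coord (v := L.v false) (U := L.U false) hS hF
    (by linarith) (by linarith) (by linarith) (fun p h => (hO p h).ch false)
    (fun p h => (hO p h).u1 false) fun p h => (hO p h).u0 false
  obtain ⟨v, hv, N2, hN2, cv, ev⟩ := cell_coord (v := L.v true) (U := L.U true) hS hF
    (by linarith) (by linarith) (by linarith) (fun p h => (hO p h).ch true)
    (fun p h => (hO p h).u1 true) fun p h => (hO p h).u0 true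
  have sel : ∀ i < 4, ∀ X, (Cell u v fun a b =>
      pr (fun p => ¬L.From Is enc Y0 i (src i a b) p (enc X p)) ≤ η) → Cl Is enc τ (L.W i) X := by
    intro i hi X h
    have := pr_or7 (s := fun p => ¬Is (L.W i p) (enc X p)) (p := F) (q := N1) (r := N2)
      (t := fun p => ¬L.From Is enc Y0 i (src i u v) p (enc X p))
      (x := fun p => ¬L.From Is enc Y0 i (src i (u + 1) v) p (enc X p))
      (y := fun p => ¬L.From Is enc Y0 i (src i u (v + 1)) p (enc X p))
      (z := fun p => ¬L.From Is enc Y0 i (src i (u + 1) (v + 1)) p (enc X p)) fun p g => by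
        by_contra k
        simp only [not_or, not_not] at k
        obtain ⟨k1, k2, k3, k4, k5, k6, k7⟩ := k
        refine g ((hO p k1).sel i hi _ fun a b ha hb => ?_)
        rcases cu p k1 k2 a ha with rfl | rfl <;> rcases cv p k1 k3 b hb with rfl | rfl <;>
          assumption
    have a1 := h u v (.inl rfl) (.inl rfl)
    have a2 := h (u + 1) v (.inr rfl) (.inl rfl)
    have a3 := h u (v + 1) (.inl rfl) (.inr rfl)
    have a4 := h (u + 1) (v + 1) (.inr rfl) (.inr rfl)
    unfold Cl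
    linarith
  have f0 : ∀ {i s X}, s = 0 ∨ s = 2 → Cl Is enc η (L.Y i) X →
      pr (fun p => ¬L.From Is enc Y0 i s p (enc X p)) ≤ η := by
    rintro i s X (rfl | rfl) h <;> exact h
  have f1 : ∀ {i s X}, s = 1 → Cl Is enc η (L.FY ((i + 3) % 4)) X →
      pr (fun p => ¬L.From Is enc Y0 i s p (enc X p)) ≤ η := by
    rintro i s X rfl h; exact h
  have f3 : ∀ {i s X}, s = 3 → Cl Is enc η (L.GY ((i + 1) % 4)) X →
      pr (fun p => ¬L.From Is enc Y0 i s p (enc X p)) ≤ η := by
    rintro i s X rfl h; exact h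
  have f4 : ∀ {i s}, s = 4 → pr (fun p => ¬L.From Is enc Y0 i s p (enc Y0 p)) ≤ η := by
    rintro i s rfl
    exact (pr_of_not fun p h => h rfl).trans_le hη0
  set Full : ℕ → St → Prop := fun i X => Val i X ∧ Cl Is enc η (L.Y i) X ∧
    Cl Is enc η (L.FY i) (Fm X) ∧ Cl Is enc η (L.GY i) (Gm X) with hFull
  have n03 : ∀ x : V4, x = 0 → x ≠ 3 := by decide
  have reg : ∀ i < 4, ∀ X, Val i X → Cl Is enc τ (L.W i) X →
      Full i X ∧ pr (fun p => L.tv i p ≠ 3) ≤ ε / 16 := by
    intro i hi X h1 h2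
    obtain ⟨a, b⟩ := (hR i hi).cmp X h1 h2
    obtain ⟨X', c, d⟩ := (hR i hi).snd ((pr_mono fun p => n03 _).trans (b.trans (by linarith)))
    obtain rfl := uq a d.1
    exact ⟨⟨c, d⟩, b⟩
  have fq : ∀ {i X X'}, Full i X → Full i X' → X = X' := fun a b => uq a.2.1 b.2.1
  have es : ∀ i < 4, pr (fun p => L.pE i p = 0) < ε →
      ∃ X, Full i X ∧ Full ((i + 1) % 4) (Fm X) ∧ Gm (Fm X) = X := by
    intro i hi h
    obtain ⟨X, a⟩ := (hR i hi).snd ((pr_le_add (p := F) (q := fun p => L.pE i p = 0)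
      fun p g => (em (F p)).imp_right fun k => (hO p k).pe0 i hi (.inl g)).trans (by linarith))
    obtain ⟨X', b⟩ := (hR _ (m1 i)).snd ((pr_le_add (p := F) (q := fun p => L.pE i p = 0)
      fun p g => (em (F p)).imp_right fun k => (hO p k).pe0 i hi (.inr (.inl g))).trans
        (by linarith))
    have e1 : Fm X = X' := hD _ _ ((pr_or4 (p := F) (q := fun p => L.pE i p = 0)
      (r := fun p => ¬Is (L.FY i p) (enc (Fm X) p))
      (t := fun p => ¬Is (L.Y ((i + 1) % 4) p) (enc X' p)) fun p g => by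
        by_contra k
        simp only [not_or, not_not] at k
        exact k.2.1 ((hO p k.1).pe0 i hi (.inr (.inr (.inl ⟨_, _, g, k.2.2⟩))))).trans
          (by have := a.2.2.1; have := b.2.1; unfold Cl at *; linarith))
    have e2 : Gm X' = X := hD _ _ ((pr_or4 (p := F) (q := fun p => L.pE i p = 0)
      (r := fun p => ¬Is (L.GY ((i + 1) % 4) p) (enc (Gm X') p))
      (t := fun p => ¬Is (L.Y i p) (enc X p)) fun p g => by
        by_contra k
        simp only [not_or, not_not] at k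
        exact k.2.1 ((hO p k.1).pe0 i hi (.inr (.inr (.inr ⟨_, _, g, k.2.2⟩))))).trans
          (by have := a.2.1; have := b.2.2.2; unfold Cl at *; linarith))
    subst e1
    exact ⟨X, a, b, e2⟩
  have ec : ∀ i < 4, ∀ X, Val i X → Val ((i + 1) % 4) (Fm X) → Gm (Fm X) = X →
      Cl Is enc τ (L.W i) X → Cl Is enc τ (L.W ((i + 1) % 4)) (Fm X) →
      pr (fun p => L.pE i p ≠ 3) ≤ ε / 4 := by
    intro i hi X h1 h2 h3 h4 h5
    obtain ⟨⟨-, a1, a2, -⟩, a3⟩ := reg i hi X h1 h4
    obtain ⟨⟨-, b1, -, b2⟩, b3⟩ := reg _ (m1 i) _ h2 h5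
    rw [h3] at b2
    have := pr_or7 (s := fun p => L.pE i p ≠ 3) (p := F) (q := fun p => L.tv i p ≠ 3)
      (r := fun p => L.tv ((i + 1) % 4) p ≠ 3) (t := fun p => ¬Is (L.FY i p) (enc (Fm X) p))
      (x := fun p => ¬Is (L.Y ((i + 1) % 4) p) (enc (Fm X) p))
      (y := fun p => ¬Is (L.GY ((i + 1) % 4) p) (enc X p))
      (z := fun p => ¬Is (L.Y i p) (enc X p)) fun p g => by
        by_contra k
        simp only [not_or, not_not] at k
        obtain ⟨k1, k2, k3, k4, k5, k6, k7⟩ := k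
        exact g ((hO p k1).pe1 i hi _ _ k2 k3 k4 k5 k6 k7)
    unfold Cl at *
    linarith
  have zs : pr (fun p => L.pE 4 p = 0) < ε → Full 0 Y0 := by
    intro h
    obtain ⟨X, a⟩ := (hR 0 (by norm_num)).snd ((pr_le_add (p := F) (q := fun p => L.pE 4 p = 0)
      fun p g => (em (F p)).imp_right fun k => (hO p k).pz0 (.inl g)).trans (by linarith))
    have e1 : X = Y0 := hD _ _ ((pr_or3 (p := F) (q := fun p => L.pE 4 p = 0)
      (r := fun p => ¬Is (L.Y 0 p) (enc X p)) fun p g => by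
        by_contra k
        simp only [not_or, not_not] at k
        exact k.2.1 ((hO p k.1).pz0 (.inr ⟨_, g, k.2.2⟩))).trans
          (by have := a.2.1; unfold Cl at *; linarith))
    subst e1
    exact a
  have zc : Cl Is enc τ (L.W 0) Y0 → pr (fun p => L.pE 4 p ≠ 3) ≤ ε / 4 := by
    intro h
    obtain ⟨⟨-, a1, -⟩, a3⟩ := reg 0 (by norm_num) Y0 hL.zero h
    have := pr_or3 (s := fun p => L.pE 4 p ≠ 3) (p := F) (q := fun p => L.tv 0 p ≠ 3)
      (r := fun p => ¬Is (L.Y 0 p) (enc Y0 p)) fun p g => by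
        by_contra k
        simp only [not_or, not_not] at k
        exact g ((hO p k.1).pz1 k.2.1 k.2.2)
    unfold Cl at *
    linarith
  have lt : ∀ {i}, pr (fun p => L.pE i p ≠ 3) ≤ ε / 4 → pr (fun p => L.pE i p = 0) < ε :=
    fun h => ((pr_mono fun p => n03 _).trans h).trans_lt (by linarith)
  classical
  set e : ℕ → Bool := fun i => decide (pr (fun p => L.pE i p = 0) < ε) with he
  have vx0 : ∀ {i X}, i < 4 → Vx u v i → Full i X → Cl Is enc τ (L.W i) X := fun hi h a =>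
    sel _ hi _ fun x y hx hy => f0 (.inl (h x y hx hy).1) a.2.1
  have vx1 : ∀ {i X}, i < 4 → Vx u v i → Full i X → Cl Is enc τ (L.W ((i + 1) % 4)) (Fm X) :=
    fun hi h a => sel _ (m1 _) _ fun x y hx hy =>
      f1 (h x y hx hy).2.1 (by rw [r1 _ hi]; exact a.2.2.1)
  have vx3 : ∀ {i X}, i < 4 → Vx u v i → Full i X → Cl Is enc τ (L.W ((i + 3) % 4)) (Gm X) :=
    fun hi h a => sel _ (m3 _) _ fun x y hx hy =>
      f3 (h x y hx hy).2.2 (by rw [r3 _ hi]; exact a.2.2.2)
  have sc : Scen u v e (e 4) := by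
    refine ⟨fun h => decide_eq_true (lt (zc (sel 0 (by norm_num) _ fun x y hx hy =>
      f4 (h x y hx hy)))), fun i hi h g => ?_, fun i hi h g => ?_, fun h g => ?_⟩
    · obtain ⟨X, -, a, -⟩ := es _ (m3 i) (of_decide_eq_true g)
      rw [r3 i hi] at a
      rcases hL.fwd i hi _ a.1 with k | k
      · exact decide_eq_true (lt (ec i hi _ a.1 k.1 k.2 (vx0 hi h a) (vx1 hi h a)))
      · exact absurd ⟨i, hi, _, a.1, a.2.1, k⟩ hno
    · obtain ⟨X, a, -⟩ := es i hi (of_decide_eq_true g)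
      rcases hL.bwd i hi _ a.1 with k | k | ⟨rfl, rfl⟩
      · refine .inl (decide_eq_true (lt (ec _ (m3 i) _ k.1 ?_ ?_ (vx3 hi h a) ?_)))
        · rw [r3 i hi, k.2]; exact a.1
        · rw [k.2]
        · rw [r3 i hi, k.2]; exact vx0 hi h a
      · exact absurd ⟨i, hi, _, a.1, a.2.1, k⟩ hno
      · exact .inr ⟨rfl, decide_eq_true (lt (zc (vx0 hi h a)))⟩
    · have a := zs (of_decide_eq_true g)
      have h0 : 0 < 4 := by norm_num
      refine ⟨decide_eq_true (lt (ec 0 h0 _ hL.zero hL.one.1 hL.one.2 (vx0 h0 h a) (vx1 h0 h a))),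
        decide_eq_false fun k => ?_⟩
      obtain ⟨X, b1, b2, b3⟩ := es 3 (by norm_num) k
      rw [fq b2 a] at b3
      exact hL.src (b3 ▸ b1.1)
  have cE : ∀ i < 4, ClE u v i → e i = true → pr (fun p => L.pE i p ≠ 3) ≤ ε / 4 := by
    intro i hi h g
    obtain ⟨X, a, b, k⟩ := es i hi (of_decide_eq_true g)
    refine ec i hi X a.1 b.1 k (sel _ hi _ fun x y hx hy => ?_) (sel _ (m1 i) _ fun x y hx hy => ?_)
    · rcases (h x y hx hy).1 with s | s | s
      exacts [f0 (.inl s) a.2.1, f0 (.inr s) a.2.1, f3 s (k ▸ b.2.2.2)]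
    · rcases (h x y hx hy).2 with s | s | s
      exacts [f0 (.inl s) b.2.1, f0 (.inr s) b.2.1, f1 s (by rw [r1 _ hi]; exact a.2.2.1)]
  have cZ : ClZ u v → e 4 = true → pr (fun p => L.pE 4 p ≠ 3) ≤ ε / 4 := by
    intro h g
    have a := zs (of_decide_eq_true g)
    refine zc (sel 0 (by norm_num) _ fun x y hx hy => ?_)
    rcases h x y hx hy with s | s | s
    exacts [f0 (.inl s) a.2.1, f0 (.inr s) a.2.1, f4 s]
  set C : Fin 5 × Bool → P → Prop := fun x p =>
    bif x.2 then L.pE x.1 p ≠ 3 else L.pE x.1 p = 0 with hC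
  set N3 : P → Prop := fun p => ∃ x, ε / 8 ≤ |pr (fun σ => C x (nb σ p)) - pr (C x)| with hN3
  have h3 : pr N3 ≤ η := (pr_exists_le' fun x => hS (C x)).trans (by simp; linarith)
  have bit : ∀ i < 5, (e i = true → pr (fun p => L.pE i p ≠ 3) ≤ ε / 4) → ∀ p, ¬F p → ¬N3 p →
      L.E i p = ofB (e i) := by
    intro i hi h p hp hn
    have hN' := fun x => abs_lt.1 (not_le.1 (not_exists.1 hn x))
    cases g : e i
    · have a := (hN' (⟨i, hi⟩, false)).1
      have b := not_lt.1 (of_decide_eq_false g)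
      simp only [hC, cond_false] at a
      exact (hO p hp).e0 i hi (by linarith)
    · have a := (hN' (⟨i, hi⟩, true)).2
      have b := h g
      simp only [hC, cond_true] at a
      exact (hO p hp).e1 i hi (by linarith)
  obtain ⟨c, s, h1, h2⟩ := tabS u hu v hv e (e 4) sc
  have hv0 : pr (fun p => L.v c 0 p ≠ ofB s) ≤ 1 / 10 :=
    (pr_or4 (p := F) (q := N1) (r := N2) (t := N3) fun p g => by
      by_contra k
      simp only [not_or] at k
      obtain ⟨k1, k2, k3, k4⟩ := k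
      exact g ((hO p k1).vt c s fun a b e' z' ha hb pe pz =>
        h1 a b (cu p k1 k2 a ha) (cv p k1 k3 b hb) e' z'
          (fun t => pe _ (bit _ ((quad_lt a b).trans (by norm_num)) (cE _ (quad_lt a b) t) p k1 k4))
          fun t => pz _ (bit 4 (by norm_num) (cZ t) p k1 k4))).trans (by linarith)
  cases c
  · exact h2 (eu s hv0)
  · exact h2 (ev s hv0)

end Pool.Agent.PP.QL.T
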